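import Mathlib

/-!
MP_4a71d8 (Q1).  There is a countable (even core factorable) right LCM semigroup `S` for which the
set of core irreducible elements is not closed under intersections.

`S = ℕ × {m,n,s}*` with `(k,w)(l,v) = (k+l, θ^l(w) v)`, where `θ` is the letterwise map
`m,n ↦ m`, `s ↦ s`.
-/

namespace Pool.Agent.Results.MP_4a71d8_al.NotCapClosed

/-- The principal right ideal `sS`. -/
def rideal {S : Type} [Monoid S] (s : S) : Set S := {x | ∃ u : S, x = s * u}

/-- Right LCM semigroup: left cancellative monoid in which the intersection of two principal right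
ideals is empty or a principal right ideal. -/
def IsRightLCM (S : Type) [Monoid S] : Prop :=
  (∀ a b c : S, a * b = a * c → b = c) ∧
    ∀ s t : S, rideal s ∩ rideal t = ∅ ∨ ∃ r : S, rideal s ∩ rideal t = rideal r

/-- The core `S_c`. -/
def core (S : Type) [Monoid S] : Set S := {a | ∀ s : S, (rideal a ∩ rideal s).Nonempty}

/-- The set `S_ci` of core irreducible elements. -/
def coreIrr (S : Type) [Monoid S] : Set S :=
  {s | s ∉ core S ∧ ∀ t a : S, a ∈ core S → s = t * a → IsUnit a}

/-- `S_ci ⊂ S` is intersection-closed. -/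
def IsCapClosed (S : Type) [Monoid S] : Prop :=
  ∀ s ∈ coreIrr S, ∀ t ∈ coreIrr S, ∀ r : S, rideal s ∩ rideal t = rideal r → r ∈ coreIrr S

/-- `S = S_ci^1 S_c`. -/
def IsCoreFactorable (S : Type) [Monoid S] : Prop :=
  ∀ x : S, ∃ s a : S, (s = 1 ∨ s ∈ coreIrr S) ∧ a ∈ core S ∧ x = s * a

/-- the letterwise map; the letters are `0 = m`, `1 = n`, `2 = s` -/
def f : Fin 3 → Fin 3 := ![0, 0, 2]

lemma ff (a : Fin 3) : f (f a) = f a := by
  fin_cases a <;> rfl

/-- `θ^l` -/
def th (l : ℕ) (w : List (Fin 3)) : List (Fin 3) := if l = 0 then w else w.map f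

lemma th_zero (w : List (Fin 3)) : th 0 w = w := by simp [th]

lemma th_pos {l : ℕ} (h : l ≠ 0) (w : List (Fin 3)) : th l w = w.map f := by simp [th, h]

lemma th_append (l : ℕ) (w v : List (Fin 3)) : th l (w ++ v) = th l w ++ th l v := by
  unfold th; split_ifs <;> simp

lemma th_nil (l : ℕ) : th l [] = [] := by
  unfold th; split_ifs <;> simp

lemma map_ff (w : List (Fin 3)) : (w.map f).map f = w.map f := by
  rw [List.map_map]
  congr 1
  funext a
  exact ff a

lemma th_th (k l : ℕ) (w : List (Fin 3)) : th l (th k w) = th (k + l) w := by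
  unfold th
  by_cases hk : k = 0 <;> by_cases hl : l = 0 <;> simp [hk, hl, -List.map_map, map_ff]

lemma th_prefix (l : ℕ) {w v : List (Fin 3)} (h : w <+: v) : th l w <+: th l v := by
  obtain ⟨u, rfl⟩ := h
  exact ⟨th l u, by rw [th_append]⟩

/-- The monoid. -/
@[ext] structure S where
  k : ℕ
  w : List (Fin 3)

instance : Mul S := ⟨fun a b => ⟨a.k + b.k, th b.k a.w ++ b.w⟩⟩
instance : One S := ⟨⟨0, []⟩⟩

lemma mul_k (a b : S) : (a * b).k = a.k + b.k := rfl
lemma mul_w (a b : S) : (a * b).w = th b.k a.w ++ b.w := rfl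
lemma one_k : (1 : S).k = 0 := rfl
lemma one_w : (1 : S).w = [] := rfl

instance : Monoid S where
  mul_assoc a b c := by
    ext1
    · simp only [mul_k]; omega
    · simp only [mul_w, mul_k, th_append, th_th, List.append_assoc]
  one_mul a := by
    ext1
    · simp [mul_k, one_k]
    · simp [mul_w, one_w, th_nil]
  mul_one a := by
    ext1
    · simp [mul_k, one_k]
    · simp [mul_w, one_w, one_k, th_zero]

instance : Countable S :=
  Function.Injective.countable (f := fun s : S => (s.k, s.w)) (by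
    intro a b h
    simp only [Prod.mk.injEq] at h
    exact S.ext h.1 h.2)

lemma mem_rideal (a x : S) : x ∈ rideal a ↔ a.k ≤ x.k ∧ th (x.k - a.k) a.w <+: x.w := by
  constructor
  · rintro ⟨u, rfl⟩
    refine ⟨by simp [mul_k], ?_⟩
    simp only [mul_k, mul_w, Nat.add_sub_cancel_left]
    exact ⟨u.w, rfl⟩
  · rintro ⟨h1, u, h2⟩
    refine ⟨⟨x.k - a.k, u⟩, ?_⟩
    ext1
    · simp only [mul_k]; omega
    · simp only [mul_w]; exact h2.symm

lemma cancel (a b c : S) (h : a * b = a * c) : b = c := by
  have h1 := congrArg S.k h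
  have h2 := congrArg S.w h
  simp only [mul_k, add_right_inj] at h1
  simp only [mul_w, h1, List.append_cancel_left_eq] at h2
  exact S.ext h1 h2

lemma rlcm_aux (s t : S) (hij : s.k ≤ t.k) :
    rideal s ∩ rideal t = ∅ ∨ ∃ r : S, rideal s ∩ rideal t = rideal r := by
  set w' := th (t.k - s.k) s.w with hw'
  have key : ∀ x : S, x ∈ rideal s ∩ rideal t ↔
      t.k ≤ x.k ∧ th (x.k - t.k) w' <+: x.w ∧ th (x.k - t.k) t.w <+: x.w := by
    intro x
    rw [Set.mem_inter_iff, mem_rideal, mem_rideal]
    constructor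
    · rintro ⟨⟨h1, h2⟩, h3, h4⟩
      refine ⟨h3, ?_, h4⟩
      rw [hw', th_th]
      have : t.k - s.k + (x.k - t.k) = x.k - s.k := by omega
      rw [this]; exact h2
    · rintro ⟨h1, h2, h3⟩
      refine ⟨⟨by omega, ?_⟩, h1, h3⟩
      rw [hw', th_th] at h2
      have : t.k - s.k + (x.k - t.k) = x.k - s.k := by omega
      rw [this] at h2; exact h2
  by_cases hA : w' <+: t.w
  · right
    refine ⟨t, ?_⟩
    ext x
    rw [key, mem_rideal]
    constructor
    · rintro ⟨h1, _, h3⟩; exact ⟨h1, h3⟩
    · rintro ⟨h1, h3⟩; exact ⟨h1, (th_prefix _ hA).trans h3, h3⟩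
  by_cases hB : t.w <+: w'
  · right
    refine ⟨⟨t.k, w'⟩, ?_⟩
    ext x
    rw [key, mem_rideal]
    constructor
    · rintro ⟨h1, h2, _⟩; exact ⟨h1, h2⟩
    · rintro ⟨h1, h2⟩; exact ⟨h1, h2, (th_prefix _ hB).trans h2⟩
  have hne : ∀ x : S, x ∈ rideal s ∩ rideal t → x.k ≠ t.k := by
    intro x hx hk
    rw [key] at hx
    obtain ⟨_, h2, h3⟩ := hx
    rw [hk, Nat.sub_self, th_zero] at h2 h3
    rcases List.prefix_or_prefix_of_prefix h2 h3 with h | h
    · exact hA h
    · exact hB h
  by_cases hC : w'.map f <+: t.w.map f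
  · right
    refine ⟨⟨t.k + 1, t.w.map f⟩, ?_⟩
    ext x
    constructor
    · intro hx
      have hn := hne x hx
      rw [key] at hx
      obtain ⟨h1, h2, h3⟩ := hx
      rw [mem_rideal]
      refine ⟨?_, ?_⟩
      · show t.k + 1 ≤ x.k; omega
      · show th (x.k - (t.k + 1)) (t.w.map f) <+: x.w
        have e : t.w.map f = th 1 t.w := (th_pos one_ne_zero _).symm
        rw [e, th_th]
        have : 1 + (x.k - (t.k + 1)) = x.k - t.k := by omega
        rw [this]; exact h3
    · intro hx
      rw [mem_rideal] at hx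
      obtain ⟨h1, h2⟩ := hx
      simp only at h1 h2
      rw [key]
      have e : t.w.map f = th 1 t.w := (th_pos one_ne_zero _).symm
      rw [e, th_th] at h2
      have h5 : 1 + (x.k - (t.k + 1)) = x.k - t.k := by omega
      rw [h5] at h2
      refine ⟨by omega, ?_, h2⟩
      have hpos : x.k - t.k ≠ 0 := by omega
      rw [th_pos hpos] at h2 ⊢
      exact hC.trans h2
  by_cases hD : t.w.map f <+: w'.map f
  · right
    refine ⟨⟨t.k + 1, w'.map f⟩, ?_⟩
    ext x
    constructor
    · intro hx
      have hn := hne x hx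
      rw [key] at hx
      obtain ⟨h1, h2, h3⟩ := hx
      rw [mem_rideal]
      refine ⟨?_, ?_⟩
      · show t.k + 1 ≤ x.k; omega
      · show th (x.k - (t.k + 1)) (w'.map f) <+: x.w
        have e : w'.map f = th 1 w' := (th_pos one_ne_zero _).symm
        rw [e, th_th]
        have : 1 + (x.k - (t.k + 1)) = x.k - t.k := by omega
        rw [this]; exact h2
    · intro hx
      rw [mem_rideal] at hx
      obtain ⟨h1, h2⟩ := hx
      simp only at h1 h2
      rw [key]
      have e : w'.map f = th 1 w' := (th_pos one_ne_zero _).symm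
      rw [e, th_th] at h2
      have h5 : 1 + (x.k - (t.k + 1)) = x.k - t.k := by omega
      rw [h5] at h2
      refine ⟨by omega, h2, ?_⟩
      have hpos : x.k - t.k ≠ 0 := by omega
      rw [th_pos hpos] at h2 ⊢
      exact hD.trans h2
  · left
    rw [Set.eq_empty_iff_forall_notMem]
    intro x hx
    have hn := hne x hx
    rw [key] at hx
    obtain ⟨h1, h2, h3⟩ := hx
    have hpos : x.k - t.k ≠ 0 := by omega
    rw [th_pos hpos] at h2 h3
    rcases List.prefix_or_prefix_of_prefix h2 h3 with h | h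
    · exact hC h
    · exact hD h

lemma rlcm : IsRightLCM S := by
  refine ⟨cancel, fun s t => ?_⟩
  rcases le_total s.k t.k with h | h
  · exact rlcm_aux s t h
  · rw [Set.inter_comm]
    exact rlcm_aux t s h

lemma mem_core_iff (a : S) : a ∈ core S ↔ a.w = [] := by
  constructor
  · intro ha
    by_contra hne
    obtain ⟨c, l, hcl⟩ := List.exists_cons_of_ne_nil hne
    -- the letter `d` opposite to `c`
    set d : Fin 3 := if c = 2 then 0 else 2 with hd
    obtain ⟨x, hx1, hx2⟩ := ha ⟨0, [d]⟩
    rw [mem_rideal] at hx1 hx2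
    obtain ⟨-, u, hu⟩ := hx1
    obtain ⟨-, v, hv⟩ := hx2
    simp only at hv
    rw [← hu, hcl] at hv
    unfold th at hv
    have hfc : f c ≠ d ∧ c ≠ d ∧ f d = d ∧ f c ≠ f d ∧ c ≠ f d := by
      rw [hd]
      clear_value d
      revert c
      intro c _ _ 
      fin_cases c <;> simp [f]
    split_ifs at hv <;> simp at hv
    · exact hfc.2.1 hv.1.symm
    · exact hfc.1 hv.1.symm
    · exact hfc.2.2.2.2 hv.1.symm
    · exact hfc.2.2.2.1 hv.1.symm
  · intro ha s
    refine ⟨⟨s.k + a.k, th a.k s.w⟩, ?_, ?_⟩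
    · rw [mem_rideal, ha, th_nil]
      exact ⟨by simp, List.nil_prefix⟩
    · rw [mem_rideal]
      refine ⟨by simp, ?_⟩
      simp

lemma isUnit_iff_eq_one (a : S) (h : IsUnit a) : a = 1 := by
  obtain ⟨b, hb⟩ := h.exists_right_inv
  have h1 := congrArg S.k hb
  have h2 := congrArg (fun x : S => x.w.length) hb
  simp only [mul_k, one_k] at h1
  have hak : a.k = 0 := by omega
  have hbk : b.k = 0 := by omega
  simp only [mul_w, one_w, hbk, th_zero, List.length_append, List.length_nil] at h2
  have : a.w.length = 0 := by omega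
  exact S.ext hak (List.length_eq_zero_iff.mp this)

lemma coreIrr_of (a : S) (ha : a.w ≠ []) (h : a.k = 0 ∨ a.w ≠ a.w.map f) : a ∈ coreIrr S := by
  refine ⟨fun hc => ha ((mem_core_iff a).mp hc), ?_⟩
  intro t b hb hab
  rw [mem_core_iff] at hb
  have hk : a.k = t.k + b.k := by rw [hab]; rfl
  have hw : a.w = th b.k t.w := by rw [hab, mul_w, hb, List.append_nil]
  have hb0 : b.k = 0 := by
    rcases h with h | h
    · omega
    · by_contra hne
      apply h
      rw [hw, th_pos hne, map_ff]
  have : b = 1 := S.ext hb0 hb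
  rw [this]; exact isUnit_one

lemma factorable : IsCoreFactorable S := by
  intro x
  by_cases hx : x.w = []
  · exact ⟨1, x, Or.inl rfl, (mem_core_iff x).mpr hx, (one_mul x).symm⟩
  by_cases h : x.w = x.w.map f
  · refine ⟨⟨0, x.w⟩, ⟨x.k, []⟩, Or.inr (coreIrr_of _ hx (Or.inl rfl)), (mem_core_iff _).mpr rfl, ?_⟩
    ext1
    · simp [mul_k]
    · simp only [mul_w, List.append_nil]
      unfold th
      split_ifs
      · rfl
      · exact h
  · exact ⟨x, 1, Or.inr (coreIrr_of x hx (Or.inr h)), (mem_core_iff 1).mpr rfl, (mul_one x).symm⟩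

lemma not_capClosed : ¬ IsCapClosed S := by
  intro hcap
  have h1 : (⟨0, [0]⟩ : S) ∈ coreIrr S := coreIrr_of _ (by simp) (Or.inl rfl)
  have h2 : (⟨0, [1]⟩ : S) ∈ coreIrr S := coreIrr_of _ (by simp) (Or.inl rfl)
  have h3 : (⟨1, [0]⟩ : S) ∈ coreIrr S := by
    refine hcap _ h1 _ h2 _ ?_
    ext x
    rw [Set.mem_inter_iff, mem_rideal, mem_rideal, mem_rideal]
    simp only
    constructor
    · rintro ⟨⟨_, ha⟩, _, hb⟩
      have hk : x.k ≠ 0 := by
        intro hk
        rw [hk, th_zero] at ha hb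
        obtain ⟨u, hu⟩ := ha
        obtain ⟨v, hv⟩ := hb
        rw [← hu] at hv
        simp at hv
      refine ⟨by omega, ?_⟩
      rw [Nat.sub_zero, th_pos hk] at ha
      unfold th
      split_ifs
      · exact ha
      · exact ha
    · rintro ⟨hk, ha⟩
      have hk' : x.k ≠ 0 := by omega
      rw [Nat.sub_zero, th_pos hk', th_pos hk']
      have h0 : ([0] : List (Fin 3)).map f = [0] := rfl
      have h1 : ([1] : List (Fin 3)).map f = [0] := rfl
      have : th (x.k - 1) [0] = [0] := by
        unfold th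
        split_ifs
        · rfl
        · rfl
      rw [this] at ha
      rw [h0, h1]
      exact ⟨⟨by omega, ha⟩, by omega, ha⟩
  obtain ⟨_, h4⟩ := h3
  have h5 := h4 ⟨0, [0]⟩ ⟨1, []⟩ ((mem_core_iff _).mpr rfl) (by
    ext1
    · rfl
    · rfl)
  have h6 := isUnit_iff_eq_one _ h5
  have h7 := congrArg S.k h6
  exact absurd h7 (by simp [one_k])

/-- There is a countable, core factorable right LCM semigroup for which the set of core
irreducible elements is not intersection-closed. -/
theorem result : ∃ (S : Type) (_ : Monoid S), Countable S ∧ IsRightLCM S ∧ IsCoreFactorable S ∧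
    ¬ IsCapClosed S :=
  ⟨S, inferInstance, inferInstance, rlcm, factorable, not_capClosed⟩

end Pool.Agent.Results.MP_4a71d8_al.NotCapClosed
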